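import Pool.Agent.Lib.P76s.Main

/-!
High-density half of the comparison between the Simple-equation energy `e` and the ground-state
energy per particle `e₀(ρ)` of the Bose gas.
-/

open MeasureTheory Filter Topology
open scoped ENNReal NNReal FourierTransform
open Pool.Agent.P76s

namespace Pool.Agent.Results.MP_76de3d_mp.HighDensity

/-- `v : ℝ³ → [0, ∞)` is an even (for instance radial) integrable pair potential, `v ≠ 0`. -/
structure IsPotential (v : E3 → ℝ) : Prop where
  measurable : Measurable v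
  nonneg : ∀ x, 0 ≤ v x
  even : ∀ x, v (-x) = v x
  integrable : Integrable v
  ne_zero : 0 < ∫ x, v x

/-- the Fourier transform of `v` (real, since `v` is even) -/
noncomputable def hat (v : E3 → ℝ) (k : E3) : ℝ := (𝓕 (fun x => (v x : ℂ)) k).re

/-- Let `v` be a pair potential which is square integrable or whose Fourier transform is negative
somewhere.  There are `δ > 0` and `ρ₀` such that for every density `ρ ≥ ρ₀`, every solution `(u, e)` of
the Simple equation with `u ≤ 1`, and every large `N`, the ground-state energy of `N` bosons on the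
torus of volume `N/ρ` is at most `(e - δ) N`, and even at most `(e - δ ρ) N` if the Fourier transform of
`v` is negative somewhere. -/
theorem result (v : E3 → ℝ) (hv : IsPotential v) (hv2 : MemLp v 2 ∨ ∃ k, hat v k < 0) :
    ∃ δ > 0, ∃ ρ₀ > 0, ∀ ρ ≥ ρ₀, ∃ N₀ : ℕ, ∀ (u : E3 → ℝ) (e : ℝ), IsSimpleSolution v ρ u e →
      (∀ᵐ x, u x ≤ 1) → ∀ N ≥ N₀, ∀ L : ℝ, L = ((N : ℝ) / ρ) ^ (1 / 3 : ℝ) →
      ∀ W : (Fin 3 → ℝ) → ℝ≥0∞, (∀ y, W y ≤ periodize L (pot v) y) →
        groundEnergy N L W ≤ ENNReal.ofReal ((e - δ) * N) ∧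
        ((∃ k, hat v k < 0) → groundEnergy N L W ≤ ENNReal.ofReal ((e - δ * ρ) * N)) := by
  by_cases hneg : ∃ k, (𝓕 (fun x => (v x : ℂ)) k).re < 0
  · obtain ⟨δ, hδ, ρ₀, hρ₀, h⟩ :=
      main_neg hv.measurable hv.integrable hv.nonneg hv.even hv.ne_zero hneg
    refine ⟨δ, hδ, max ρ₀ 1, by positivity, fun ρ hρ => ?_⟩
    obtain ⟨N₀, hN₀⟩ := h ρ ((le_max_left _ _).trans hρ)
    refine ⟨N₀, fun u e hs hu N hN L hL W hW => ?_⟩
    have hmain : groundEnergy N L W ≤ ENNReal.ofReal ((e - δ * ρ) * N) := by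
      subst hL
      exact (groundEnergy_mono hW).trans (hN₀ u e hs hu N hN)
    refine ⟨hmain.trans (ENNReal.ofReal_le_ofReal ?_), fun _ => hmain⟩
    refine mul_le_mul_of_nonneg_right ?_ (Nat.cast_nonneg N)
    have h1 : (1 : ℝ) ≤ ρ := (le_max_right _ _).trans hρ
    nlinarith
  · have hv2' : MemLp v 2 := hv2.resolve_right hneg
    push Not at hneg
    obtain ⟨δ, hδ, ρ₀, hρ₀, h⟩ :=
      main_pos hv.measurable hv.integrable hv.nonneg hv.even hv2' hv.ne_zero hneg
    refine ⟨δ, hδ, ρ₀, hρ₀, fun ρ hρ => ?_⟩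
    obtain ⟨N₀, hN₀⟩ := h ρ hρ
    refine ⟨N₀, fun u e hs hu N hN L hL W hW => ⟨?_, fun ⟨k, hk⟩ => ?_⟩⟩
    · subst hL
      exact (groundEnergy_mono hW).trans (hN₀ u e hs hu N hN)
    · exact absurd (hneg k) (not_le.2 hk)

end Pool.Agent.Results.MP_76de3d_mp.HighDensity
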