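import Pool.Agent.Lib.P76b.Main

/-!
Comparison between the Simple-equation energy `e` and the ground-state energy per particle `e₀(ρ)` of the
Bose gas with potential `g v₁` at strong coupling, at all densities above an explicit threshold.
-/

open MeasureTheory Filter Topology
open scoped ENNReal NNReal
open Pool.Agent.P76s

namespace Pool.Agent.Results.MP_76de3d_mp.StrongCoupling

/-- `v : ℝ³ → [0, M]` is an even (for instance radial) pair potential which vanishes off the open cube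
`|x_b| < R` (for instance for `|x| ≥ R`). -/
structure IsPotential (M R : ℝ) (v : E3 → ℝ) : Prop where
  measurable : Measurable v
  nonneg : ∀ x, 0 ≤ v x
  le : ∀ x, v x ≤ M
  even : ∀ x, v (-x) = v x
  support : ∀ x : E3, (∃ b, R ≤ |x b|) → v x = 0
  integrable : Integrable v

/-- Let `v₁` be such a potential, `V = ∫ v₁`, and let `ρ₀ > 0` satisfy
* `V > (9/8) M R³` and `ρ₀ V > M`, or
* `V > M R³` and `4 R³ (V - M R³) ρ₀² > M`.
There are `g₁, c > 0` such that for every coupling `g ≥ g₁`, every density `ρ ≥ ρ₀` and every solution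
`(u, e)`, `u ≤ 1`, of the Simple equation with potential `g v₁` at density `ρ`, for every large `N` the
ground-state energy of `N` bosons on the torus of volume `N/ρ` with pair potential `g v₁` is at most
`(e - c g ρ) N`. -/
theorem result (M R : ℝ) (hR : 0 < R) (v₁ : E3 → ℝ) (hv : IsPotential M R v₁) (ρ₀ : ℝ)
    (hρ₀ : 0 < ρ₀)
    (hcase : (9 / 8 * (M * R ^ 3) < ∫ x, v₁ x ∧ M < ρ₀ * ∫ x, v₁ x) ∨
      (M * R ^ 3 < ∫ x, v₁ x ∧ M < 4 * R ^ 3 * ((∫ x, v₁ x) - M * R ^ 3) * ρ₀ ^ 2)) :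
    ∃ g₁ > 0, ∃ c > 0, ∀ g ≥ g₁, ∀ ρ ≥ ρ₀, ∃ N₀ : ℕ, ∀ (u : E3 → ℝ) (e : ℝ),
      IsSimpleSolution (fun x => g * v₁ x) ρ u e → (∀ᵐ x, u x ≤ 1) → ∀ N ≥ N₀,
      ∀ L : ℝ, L = ((N : ℝ) / ρ) ^ (1 / 3 : ℝ) →
      ∀ W : (Fin 3 → ℝ) → ℝ≥0∞, (∀ y, W y ≤ periodize L (pot fun x => g * v₁ x) y) →
        groundEnergy N L W ≤ ENNReal.ofReal ((e - c * g * ρ) * N) := by
  obtain ⟨g₁, hg₁, c, hc, h⟩ := Pool.Agent.P76b.main hv.measurable hv.integrable hv.nonneg hR
    hv.le hv.support hρ₀ hcase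
  refine ⟨g₁, hg₁, c, hc, fun g hg ρ hρ => ?_⟩
  obtain ⟨N₀, hN₀⟩ := h g hg ρ hρ
  refine ⟨N₀, fun u e hs hu N hN L hL W hW => ?_⟩
  subst hL
  exact (groundEnergy_mono hW).trans (hN₀ u e hs hu N hN)

end Pool.Agent.Results.MP_76de3d_mp.StrongCoupling
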