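import Pool.Agent.Lib.P76w.Main
import Pool.Agent.Lib.P76s.Upper

/-!
Comparison between the Simple-equation energy `e` and the ground-state energy per particle `e₀(ρ)` of the
Bose gas for weak potentials, at all densities above a constant times the coupling.
-/

open MeasureTheory Filter Topology
open scoped ENNReal NNReal FourierTransform
open Pool.Agent.P76s

namespace Pool.Agent.Results.MP_76de3d_mp.WeakCoupling

/-- `v₁ : ℝ³ → [0, ∞)` is an even (for instance radial) pair potential in `L¹ ∩ L²`, `v₁ ≠ 0`. -/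
structure IsPotential (v₁ : E3 → ℝ) : Prop where
  measurable : Measurable v₁
  nonneg : ∀ x, 0 ≤ v₁ x
  even : ∀ x, v₁ (-x) = v₁ x
  integrable : Integrable v₁
  sq_integrable : MemLp v₁ 2
  ne_zero : 0 < ∫ x, v₁ x

/-- Let `v₁` be a pair potential in `L¹ ∩ L²`.  There are `lam₀, C, c > 0` such that for every coupling
`0 < lam ≤ lam₀`, every density `ρ ≥ C lam` and every solution `(u, e)`, `u ≤ 1`, of the Simple equation
with potential `lam • v₁` at density `ρ`, for every large `N` the ground-state energy of `N` bosons on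
the torus of volume `N/ρ` with pair potential `lam • v₁` is at most
`(e - c lam (ρ lam/(1 + ρ lam))²) N`. -/
theorem result (v₁ : E3 → ℝ) (hv : IsPotential v₁) :
    ∃ lam₀ > 0, ∃ C > 0, ∃ c > 0, ∀ lam > 0, lam ≤ lam₀ → ∀ ρ : ℝ, C * lam ≤ ρ →
      ∀ (u : E3 → ℝ) (e : ℝ), IsSimpleSolution (fun x => lam * v₁ x) ρ u e →
      (∀ᵐ x, u x ≤ 1) → ∃ N₀ : ℕ, ∀ N ≥ N₀, ∀ L : ℝ, L = ((N : ℝ) / ρ) ^ (1 / 3 : ℝ) →
      ∀ W : (Fin 3 → ℝ) → ℝ≥0∞, (∀ y, W y ≤ periodize L (pot fun x => lam * v₁ x) y) →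
        groundEnergy N L W ≤
          ENNReal.ofReal ((e - c * lam * (ρ * lam / (1 + ρ * lam)) ^ 2) * N) := by
  obtain ⟨lam₀, hlam₀, C, hC, c, hc, h⟩ := Pool.Agent.P76w.main
    ⟨hv.measurable, hv.integrable, hv.nonneg, hv.even, hv.sq_integrable, hv.ne_zero⟩
  refine ⟨lam₀, hlam₀, C, hC, c, hc, fun lam hlam hle ρ hρ u e hs hu => ?_⟩
  obtain ⟨N₀, hN₀⟩ := h lam hlam hle ρ hρ u e hs hu
  refine ⟨N₀, fun N hN L hL W hW => ?_⟩
  subst hL
  exact (groundEnergy_mono hW).trans (hN₀ N hN)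

end Pool.Agent.Results.MP_76de3d_mp.WeakCoupling
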